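import Pool.Agent.R228.QG.Del

/-!
# An infinite proper hot-spot set with non-standard vertex conditions

The graph is a triangle with three sides of length `arccos (-4/5)` and delta conditions of strength
one at the corners. The second eigenvalue is `1`, with a two-dimensional eigenspace. The inner
points of each side close to its middle are hot spots, but the corners are not.
-/

set_option autoImplicit false

namespace Pool.Agent.Results.MP_1debac_an.DeltaTriangle

open Pool.Agent.R228.QG

/-- There is a compact connected metric graph with delta vertex conditions, whose strengths are all
positive, for which the hot-spot set is infinite but is not the whole graph. -/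
theorem result : ∃ (V E : Type) (_ : Fintype V) (_ : Fintype E) (_ : DecidableEq V)
    (Γ : MGraph V E) (α : V → ℝ), Γ.Connected ∧ (∀ v, 0 < α v) ∧ (hotSet Γ α).Infinite ∧
      hotSet Γ α ≠ Set.univ :=
  ⟨Fin 3, Fin 3, inferInstance, inferInstance, inferInstance, cyc, fun _ => 1, cyc_connected,
    fun _ => one_pos, chot_infinite, chot_ne_univ⟩

end Pool.Agent.Results.MP_1debac_an.DeltaTriangle
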